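import Mathlib.Analysis.Calculus.BumpFunction.FiniteDimension
import Mathlib.Analysis.Calculus.BumpFunction.InnerProduct
import Mathlib.Analysis.InnerProductSpace.PiL2
import Mathlib.Analysis.InnerProductSpace.Calculus
import Mathlib.MeasureTheory.Covering.Besicovitch
import Mathlib.MeasureTheory.Covering.BesicovitchVectorSpace
import Mathlib.MeasureTheory.Covering.Differentiation
import Mathlib.MeasureTheory.Measure.Haar.InnerProductSpace
import Mathlib.MeasureTheory.Measure.Lebesgue.EqHaar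
import Mathlib.MeasureTheory.Measure.Hausdorff
import Mathlib.Tactic

/-!
# Absolute continuity of `B u` on the jump set with respect to `ℋ^{n-1}`

For every first order homogeneous operator `B` with constant coefficients (elliptic or not) and
every `u ∈ BV^B(Ω)` one has `|B u| ⌞ J_u ≪ ℋ^{n-1}`.

Proof. Write `B u = g μ` with `|g| = 1`. Let `x ∈ J_u` be a Lebesgue point of `g` with respect to
`μ`, and test with `ψ((y - x)/r) g(x)`. Since the averages of `|u|` on `B_r(x)` stay bounded, this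
gives `μ(B_{r/2}(x)) ≤ C r^{n-1} + ε(r) μ(B_r(x))` with `ε(r) → 0`, and iterating,
`μ(B_r(x)) ≤ M r^{n-1}` for small `r`. So the upper `(n-1)`-density of `μ` is finite at `μ`-almost
every point of `J_u`, and the claim follows.
-/

set_option autoImplicit false

open MeasureTheory Measure Set Filter Topology Module Metric
open scoped ENNReal ContDiff InnerProductSpace

namespace Pool.Agent.Results.MP_06111c_an.AllFirstOrder

/-- Euclidean space `ℝ^k`. -/
abbrev R (k : ℕ) : Type := EuclideanSpace ℝ (Fin k)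

/-- `x` is a jump point of `u`: there are `a ≠ b` and a unit vector `ν` such that
`r⁻ⁿ ∫_{B_r^+(x,ν)} |u - a| → 0` and `r⁻ⁿ ∫_{B_r^-(x,ν)} |u - b| → 0` as `r → 0`. -/
def IsJumpPoint {n N : ℕ} (u : R n → R N) (x : R n) : Prop :=
  ∃ (a b : R N) (ν : R n), a ≠ b ∧ ‖ν‖ = 1 ∧
    Tendsto (fun r : ℝ => (r ^ n)⁻¹ *
      ∫ y in ball x r ∩ {y | 0 < inner ℝ (y - x) ν}, ‖u y - a‖) (𝓝[>] 0) (𝓝 0) ∧
    Tendsto (fun r : ℝ => (r ^ n)⁻¹ *
      ∫ y in ball x r ∩ {y | inner ℝ (y - x) ν < 0}, ‖u y - b‖) (𝓝[>] 0) (𝓝 0)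

/-- `B u = g μ` in the sense of distributions on `Ω`, where `B u = ∑ j, B_j ∂_j u`. -/
def IsDistr {n N K : ℕ} (B : Fin n → (R N →L[ℝ] R K)) (Ω : Set (R n)) (u : R n → R N)
    (μ : Measure (R n)) (g : R n → R K) : Prop :=
  ∀ φ : R n → R K, ContDiff ℝ ∞ φ → HasCompactSupport φ → tsupport φ ⊆ Ω →
    ∫ x in Ω, ∑ j, inner ℝ (B j (u x)) (fderiv ℝ φ x (EuclideanSpace.single j 1)) =
      - ∫ x, inner ℝ (g x) (φ x) ∂μ

/-- A set of zero `s`-dimensional Hausdorff measure at each point of which `μ` has finite upper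
`s`-density is `μ`-null. -/
theorem null_of_density {n : ℕ} (μ : Measure (R n)) {s : ℝ} (hs : 0 < s)
    {E : Set (R n)} (hE : μH[s] E = 0)
    (h : ∀ x ∈ E, ∃ M : ℝ, ∃ r₀ : ℝ, 0 < r₀ ∧ ∀ r : ℝ, 0 < r → r ≤ r₀ →
      μ (closedBall x r) ≤ ENNReal.ofReal (M * r ^ s)) : μ E = 0 := by
  set F : ℕ → Set (R n) := fun k => {x | x ∈ E ∧ ∀ r : ℝ, 0 < r → r ≤ 1 / ((k : ℝ) + 1) →
      μ (closedBall x r) ≤ ENNReal.ofReal (k * r ^ s)} with hF
  have hEF : E ⊆ ⋃ k, F k := by
    intro x hx
    obtain ⟨M, r₀, hr₀, hM⟩ := h x hx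
    obtain ⟨k, hk⟩ := exists_nat_gt (max M (1 / r₀))
    rw [mem_iUnion]
    refine ⟨k, hx, fun r hr hrk => ?_⟩
    have h1 : M < k := (le_max_left _ _).trans_lt hk
    have h2 : 1 / r₀ < k := (le_max_right _ _).trans_lt hk
    have h3 : r ≤ r₀ := by
      have hk0 : (0 : ℝ) < (k : ℝ) + 1 := by positivity
      rw [div_lt_iff₀ hr₀] at h2
      rw [le_div_iff₀ hk0] at hrk
      nlinarith
    refine (hM r hr h3).trans ?_
    apply ENNReal.ofReal_le_ofReal
    exact mul_le_mul_of_nonneg_right h1.le (Real.rpow_nonneg hr.le _)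
  refine measure_mono_null hEF (measure_iUnion_null fun k => ?_)
  have hFk : μH[s] (F k) = 0 := measure_mono_null (fun x hx => hx.1) hE
  have hk0 : (0 : ℝ) < 1 / ((k : ℝ) + 1) := by positivity
  have key : ∀ ε : ℝ≥0∞, 0 < ε → μ (F k) ≤ k * ε := by
    intro ε hε
    rw [hausdorffMeasure_apply] at hFk
    have h1 : (⨅ (t : ℕ → Set (R n)) (_ : F k ⊆ ⋃ n, t n)
        (_ : ∀ n, ediam (t n) ≤ ENNReal.ofReal (1 / ((k : ℝ) + 1))),
          ∑' n, ⨆ _ : (t n).Nonempty, ediam (t n) ^ s) < ε := by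
      refine lt_of_le_of_lt ?_ hε
      rw [← hFk]
      exact le_iSup₂ (f := fun (r : ℝ≥0∞) (_ : 0 < r) =>
        ⨅ (t : ℕ → Set (R n)) (_ : F k ⊆ ⋃ n, t n) (_ : ∀ n, ediam (t n) ≤ r),
          ∑' n, ⨆ _ : (t n).Nonempty, ediam (t n) ^ s)
          (ENNReal.ofReal (1 / ((k : ℝ) + 1))) (ENNReal.ofReal_pos.2 hk0)
    simp only [iInf_lt_iff] at h1
    obtain ⟨t, htF, htd, hts⟩ := h1
    have hpt : ∀ i, μ (t i ∩ F k) ≤ k * ⨆ _ : (t i).Nonempty, ediam (t i) ^ s := by
      intro i
      rcases (t i ∩ F k).eq_empty_or_nonempty with he | ⟨x, hxt, hxE, hxF⟩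
      · rw [he, measure_empty]; exact bot_le
      · have hne : (t i).Nonempty := ⟨x, hxt⟩
        rw [iSup_pos hne]
        have hfin : ediam (t i) ≠ ⊤ := ne_top_of_le_ne_top ENNReal.ofReal_ne_top (htd i)
        set δ : ℝ := (ediam (t i)).toReal with hδ
        have hδ0 : 0 ≤ δ := ENNReal.toReal_nonneg
        have hδE : ediam (t i) = ENNReal.ofReal δ := (ENNReal.ofReal_toReal hfin).symm
        have hδk : δ ≤ 1 / ((k : ℝ) + 1) := by
          have := htd i
          rw [hδE] at this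
          exact (ENNReal.ofReal_le_ofReal_iff hk0.le).1 this
        have hsub : ∀ r : ℝ, δ ≤ r → t i ⊆ closedBall x r := by
          intro r hr y hy
          rw [mem_closedBall, dist_edist]
          refine le_trans ?_ hr
          rw [hδ]
          exact ENNReal.toReal_mono hfin (edist_le_ediam_of_mem hy hxt)
        rcases hδ0.eq_or_lt with h0 | hpos
        · have hlim : Tendsto (fun r : ℝ => ENNReal.ofReal (k * r ^ s)) (𝓝[>] 0) (𝓝 0) := by
            have : Tendsto (fun r : ℝ => (k : ℝ) * r ^ s) (𝓝 0) (𝓝 (k * 0 ^ s)) := by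
              apply Tendsto.const_mul
              exact (Real.continuousAt_rpow_const 0 s (Or.inr hs.le)).tendsto
            rw [Real.zero_rpow hs.ne', mul_zero] at this
            have h2 := (ENNReal.continuous_ofReal.tendsto 0).comp this
            rw [ENNReal.ofReal_zero] at h2
            exact h2.mono_left nhdsWithin_le_nhds
          have h0' : μ (t i ∩ F k) ≤ 0 := by
            refine ge_of_tendsto hlim ?_
            filter_upwards [Ioc_mem_nhdsGT hk0] with r hr
            refine (measure_mono (inter_subset_left.trans (hsub r ?_))).trans (hxF r hr.1 hr.2)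
            rw [← h0]; exact hr.1.le
          exact h0'.trans bot_le
        · calc μ (t i ∩ F k) ≤ μ (closedBall x δ) := measure_mono (inter_subset_left.trans (hsub δ le_rfl))
            _ ≤ ENNReal.ofReal (k * δ ^ s) := hxF δ hpos hδk
            _ = k * ediam (t i) ^ s := by
                rw [ENNReal.ofReal_mul (by positivity), hδE,
                  ENNReal.ofReal_rpow_of_pos hpos, ENNReal.ofReal_natCast]
    calc μ (F k) ≤ μ (⋃ i, t i ∩ F k) := by
          apply measure_mono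
          intro x hx
          obtain ⟨i, hi⟩ := mem_iUnion.1 (htF hx)
          exact mem_iUnion.2 ⟨i, hi, hx⟩
      _ ≤ ∑' i, μ (t i ∩ F k) := measure_iUnion_le _
      _ ≤ ∑' i, k * ⨆ _ : (t i).Nonempty, ediam (t i) ^ s := ENNReal.tsum_le_tsum hpt
      _ = k * ∑' i, ⨆ _ : (t i).Nonempty, ediam (t i) ^ s := ENNReal.tsum_mul_left
      _ ≤ k * ε := by gcongr
  by_contra hne
  have hpos : 0 < μ (F k) := pos_iff_ne_zero.2 hne
  rcases Nat.eq_zero_or_pos k with hk | hk
  · have := key 1 one_pos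
    rw [hk] at this
    simp at this
    rw [hk] at hne
    exact hne this
  · obtain ⟨ε, hε0, hε⟩ := ENNReal.exists_pos_mul_lt (a := (k : ℝ≥0∞)) (b := μ (F k))
      (ENNReal.natCast_ne_top k) hpos.ne'
    have := key ε hε0
    rw [mul_comm] at hε
    exact absurd this (not_le.2 (by simpa [mul_comm] using hε))

/-- The hyperplane through `x` orthogonal to a unit vector is a null set. -/
theorem volume_hyperplane {n : ℕ} (x ν : R n) (hν : ‖ν‖ = 1) :
    volume {y : R n | inner ℝ (y - x) ν = (0 : ℝ)} = 0 := by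
  set S : AffineSubspace ℝ (R n) := AffineSubspace.mk' x (ℝ ∙ ν)ᗮ with hS
  have h1 : {y : R n | inner ℝ (y - x) ν = (0 : ℝ)} = S := by
    ext y
    change inner ℝ (y - x) ν = (0 : ℝ) ↔ y ∈ S
    rw [hS, AffineSubspace.mem_mk', vsub_eq_sub, Submodule.mem_orthogonal_singleton_iff_inner_left]
  rw [h1]
  apply Measure.addHaar_affineSubspace
  intro htop
  have h2 : x + ν ∈ S := by rw [htop]; trivial
  rw [hS, AffineSubspace.mem_mk', vsub_eq_sub, Submodule.mem_orthogonal_singleton_iff_inner_left,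
    add_sub_cancel_left, real_inner_self_eq_norm_sq, hν] at h2
  norm_num at h2

/-- At a jump point the averages of `|u|` stay bounded. -/
theorem bounded_averages {n N : ℕ} {Ω : Set (R n)} (hΩ : IsOpen Ω) {u : R n → R N}
    (hu : IntegrableOn u Ω) {x : R n} (hx : x ∈ Ω) (hJ : IsJumpPoint u x) :
    ∃ C r₁ : ℝ, 0 ≤ C ∧ 0 < r₁ ∧ ∀ r, 0 < r → r < r₁ → closedBall x r ⊆ Ω ∧
      ∫ y in ball x r, ‖u y‖ ≤ C * r ^ n := by
  obtain ⟨a, b, ν, hab, hν, ha, hb⟩ := hJ
  obtain ⟨r₂, hr₂, hr₂Ω⟩ := Metric.isOpen_iff.1 hΩ x hx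
  have ha' : ∀ᶠ r in 𝓝[>] (0 : ℝ), (r ^ n)⁻¹ *
      ∫ y in ball x r ∩ {y | 0 < inner ℝ (y - x) ν}, ‖u y - a‖ < 1 :=
    ha.eventually (gt_mem_nhds one_pos)
  have hb' : ∀ᶠ r in 𝓝[>] (0 : ℝ), (r ^ n)⁻¹ *
      ∫ y in ball x r ∩ {y | inner ℝ (y - x) ν < 0}, ‖u y - b‖ < 1 :=
    hb.eventually (gt_mem_nhds one_pos)
  obtain ⟨r₃, hr₃, H⟩ := mem_nhdsGT_iff_exists_Ioo_subset.1 (ha'.and hb')
  have hr₃' : 0 < r₃ := hr₃
  set V : ℝ := volume.real (ball (0 : R n) 1) with hV
  have hV0 : 0 ≤ V := measureReal_nonneg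
  refine ⟨1 + ‖a‖ * V + (1 + ‖b‖ * V), min r₂ r₃, by positivity, lt_min hr₂ hr₃',
    fun r hr hr1 => ?_⟩
  have hrr2 : r < r₂ := hr1.trans_le (min_le_left _ _)
  have hrr3 : r < r₃ := hr1.trans_le (min_le_right _ _)
  have hcb : closedBall x r ⊆ Ω := (closedBall_subset_ball hrr2).trans hr₂Ω
  refine ⟨hcb, ?_⟩
  have hrn : 0 < r ^ n := by positivity
  have hvol : volume.real (ball x r) = V * r ^ n := by
    rw [hV, measureReal_def, measureReal_def, Measure.addHaar_ball_of_pos volume x hr,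
      ENNReal.toReal_mul, ENNReal.toReal_ofReal (by positivity), finrank_euclideanSpace_fin,
      mul_comm]
  obtain ⟨H1, H2⟩ := H (show r ∈ Ioo 0 r₃ from ⟨hr, hrr3⟩)
  have hui : IntegrableOn u (ball x r) := hu.mono_set (ball_subset_closedBall.trans hcb)
  have hPm : MeasurableSet {y : R n | (0 : ℝ) < inner ℝ (y - x) ν} := by
    apply IsOpen.measurableSet
    exact isOpen_lt continuous_const ((continuous_id.sub continuous_const).inner continuous_const)
  have hNm : MeasurableSet {y : R n | inner ℝ (y - x) ν < (0 : ℝ)} := by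
    apply IsOpen.measurableSet
    exact isOpen_lt ((continuous_id.sub continuous_const).inner continuous_const) continuous_const
  have part : ∀ (T : Set (R n)) (c : R N), MeasurableSet T →
      (r ^ n)⁻¹ * ∫ y in ball x r ∩ T, ‖u y - c‖ < 1 →
      ∫ y in ball x r ∩ T, ‖u y‖ ≤ (1 + ‖c‖ * V) * r ^ n := by
    intro T c hT hlt
    have i0 : IntegrableOn u (ball x r ∩ T) := hui.mono_set inter_subset_left
    have ic : IntegrableOn (fun _ => c) (ball x r ∩ T) := by
      apply IntegrableOn.mono_set _ inter_subset_left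
      exact integrableOn_const (measure_ball_lt_top).ne
    have i1 : IntegrableOn (fun y => ‖u y - c‖) (ball x r ∩ T) := (i0.sub ic).norm
    have i2 : IntegrableOn (fun _ : R n => ‖c‖) (ball x r ∩ T) := ic.norm
    have h1 : ∫ y in ball x r ∩ T, ‖u y - c‖ ≤ r ^ n := by
      rw [inv_mul_lt_iff₀ hrn, mul_one] at hlt
      exact hlt.le
    have h2 : ∫ y in ball x r ∩ T, ‖c‖ ≤ ‖c‖ * V * r ^ n := by
      rw [setIntegral_const, smul_eq_mul, mul_comm, mul_assoc]
      apply mul_le_mul_of_nonneg_left _ (norm_nonneg _)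
      rw [← hvol]
      exact measureReal_mono inter_subset_left measure_ball_lt_top.ne
    calc ∫ y in ball x r ∩ T, ‖u y‖ ≤ ∫ y in ball x r ∩ T, (‖u y - c‖ + ‖c‖) := by
          apply integral_mono i0.norm (i1.add i2)
          intro y
          calc ‖u y‖ = ‖(u y - c) + c‖ := by rw [sub_add_cancel]
            _ ≤ ‖u y - c‖ + ‖c‖ := norm_add_le _ _
      _ = (∫ y in ball x r ∩ T, ‖u y - c‖) + ∫ y in ball x r ∩ T, ‖c‖ := integral_add i1 i2
      _ ≤ (1 + ‖c‖ * V) * r ^ n := by
          have : (1 + ‖c‖ * V) * r ^ n = r ^ n + ‖c‖ * V * r ^ n := by ring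
          rw [this]
          exact add_le_add h1 h2
  have pA := part _ a hPm H1
  have pB := part _ b hNm H2
  have hcover : ball x r =ᵐ[volume] ((ball x r ∩ {y | (0 : ℝ) < inner ℝ (y - x) ν}) ∪
      (ball x r ∩ {y | inner ℝ (y - x) ν < (0 : ℝ)}) : Set (R n)) := by
    have h0 : ∀ᵐ y : R n, y ∉ {y : R n | inner ℝ (y - x) ν = (0 : ℝ)} := by
      rw [ae_iff]
      refine measure_mono_null ?_ (volume_hyperplane x ν hν)
      intro y hy
      exact not_not.1 hy
    filter_upwards [h0] with y hy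
    have hy' : (inner ℝ (y - x) ν : ℝ) ≠ 0 := hy
    apply propext
    constructor
    · intro hyb
      rcases lt_or_gt_of_ne hy' with h | h
      · exact Or.inr ⟨hyb, h⟩
      · exact Or.inl ⟨hyb, h⟩
    · rintro (h | h)
      · exact h.1
      · exact h.1
  rw [setIntegral_congr_set hcover, setIntegral_union _ (measurableSet_ball.inter hNm)
    (hui.mono_set inter_subset_left).norm (hui.mono_set inter_subset_left).norm]
  · linarith
  · rw [Set.disjoint_left]
    rintro y ⟨_, h1⟩ ⟨_, h2⟩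
    have h1' : (0 : ℝ) < inner ℝ (y - x) ν := h1
    have h2' : inner ℝ (y - x) ν < (0 : ℝ) := h2
    exact lt_asymm h1' h2'

/-- Dyadic iteration. -/
theorem iterate {a : ℝ → ℝ} {n : ℕ} (hn : 1 ≤ n) {C r₁ : ℝ} (hr₁ : 0 < r₁)
    (hmono : ∀ r s, r ≤ s → a r ≤ a s) (ha0 : ∀ r, 0 ≤ a r)
    (h : ∀ r, 0 < r → r ≤ r₁ → a (r / 2) ≤ C * r ^ (n - 1) + (1 / 2) ^ n * a r) :
    ∃ M : ℝ, ∀ r, 0 < r → r ≤ r₁ → a r ≤ M * r ^ (n - 1) := by
  set M : ℝ := max (2 ^ n * C) (a r₁ * (2 / r₁) ^ (n - 1)) with hM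
  refine ⟨M, ?_⟩
  have hM1 : 2 ^ n * C ≤ M := le_max_left _ _
  have hM2 : a r₁ * (2 / r₁) ^ (n - 1) ≤ M := le_max_right _ _
  have key : ∀ k : ℕ, ∀ r, r₁ / 2 ^ (k + 1) < r → r ≤ r₁ → a r ≤ M * r ^ (n - 1) := by
    intro k
    induction k with
    | zero =>
      intro r hr hr1
      rw [zero_add, pow_one] at hr
      have h1 : (1 : ℝ) ≤ (2 / r₁) ^ (n - 1) * r ^ (n - 1) := by
        rw [← mul_pow]
        apply one_le_pow₀
        rw [div_mul_eq_mul_div, le_div_iff₀ hr₁]
        linarith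
      have hr0 : 0 < r := lt_trans (by positivity) hr
      calc a r ≤ a r₁ := hmono _ _ hr1
        _ ≤ a r₁ * ((2 / r₁) ^ (n - 1) * r ^ (n - 1)) := le_mul_of_one_le_right (ha0 _) h1
        _ = (a r₁ * (2 / r₁) ^ (n - 1)) * r ^ (n - 1) := by ring
        _ ≤ M * r ^ (n - 1) := by gcongr
    | succ k ih =>
      intro r hr hr1
      have hr0 : 0 < r := lt_trans (by positivity) hr
      rcases lt_or_ge (r₁ / 2) r with h2 | h2
      · have h1 : (1 : ℝ) ≤ (2 / r₁) ^ (n - 1) * r ^ (n - 1) := by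
          rw [← mul_pow]
          apply one_le_pow₀
          rw [div_mul_eq_mul_div, le_div_iff₀ hr₁]
          linarith
        calc a r ≤ a r₁ := hmono _ _ hr1
          _ ≤ a r₁ * ((2 / r₁) ^ (n - 1) * r ^ (n - 1)) := le_mul_of_one_le_right (ha0 _) h1
          _ = (a r₁ * (2 / r₁) ^ (n - 1)) * r ^ (n - 1) := by ring
          _ ≤ M * r ^ (n - 1) := by gcongr
      · have h3 : 2 * r ≤ r₁ := by linarith
        have h4 : r₁ / 2 ^ (k + 1) < 2 * r := by
          rw [div_lt_iff₀ (by positivity)]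
          rw [div_lt_iff₀ (by positivity)] at hr
          calc r₁ < r * 2 ^ (k + 1 + 1) := hr
            _ = 2 * r * 2 ^ (k + 1) := by ring
        have h5 := ih (2 * r) h4 h3
        have h6 := h (2 * r) (by positivity) h3
        rw [mul_div_cancel_left₀ r (two_ne_zero)] at h6
        obtain ⟨m, rfl⟩ : ∃ m, n = m + 1 := ⟨n - 1, by omega⟩
        simp only [Nat.add_sub_cancel] at h5 h6 hM1 hM2 ⊢
        have hrm : 0 < r ^ m := by positivity
        calc a r ≤ C * (2 * r) ^ m + (1 / 2) ^ (m + 1) * a (2 * r) := h6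
          _ ≤ C * (2 * r) ^ m + (1 / 2) ^ (m + 1) * (M * (2 * r) ^ m) := by gcongr
          _ = (2 ^ (m + 1) * C) / 2 * r ^ m + M / 2 * r ^ m := by
              rw [mul_pow, pow_succ, pow_succ, one_div, inv_pow]
              field_simp
          _ ≤ M / 2 * r ^ m + M / 2 * r ^ m := by
              have : (2 ^ (m + 1) * C) / 2 ≤ M / 2 := by linarith
              have := mul_le_mul_of_nonneg_right this hrm.le
              linarith
          _ = M * r ^ m := by ring
  intro r hr hr1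
  obtain ⟨k, hk⟩ := pow_unbounded_of_one_lt (r₁ / r) (by norm_num : (1 : ℝ) < 2)
  apply key k r _ hr1
  rw [div_lt_iff₀ (by positivity)]
  rw [div_lt_iff₀ hr] at hk
  calc r₁ < 2 ^ k * r := hk
    _ ≤ 2 ^ (k + 1) * r := by
        apply mul_le_mul_of_nonneg_right _ hr.le
        exact pow_le_pow_right₀ (by norm_num) (by omega)
    _ = r * 2 ^ (k + 1) := by ring

/-- The test function estimate. -/
theorem test_estimate {n N K : ℕ} (B : Fin n → (R N →L[ℝ] R K)) :
    ∃ D : ℝ, 0 ≤ D ∧ ∀ (Ω : Set (R n)), IsOpen Ω → ∀ (u : R n → R N), IntegrableOn u Ω →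
      ∀ (μ : Measure (R n)) (g : R n → R K), IsFiniteMeasure μ → Measurable g →
      (∀ᵐ x ∂μ, ‖g x‖ = 1) → IsDistr B Ω u μ g →
      ∀ (x : R n), ‖g x‖ = 1 → ∀ r, 0 < r → closedBall x r ⊆ Ω →
      μ.real (closedBall x (r / 2)) ≤ D * r⁻¹ * (∫ y in ball x r, ‖u y‖) +
        ∫ y in closedBall x r, ‖g y - g x‖ ∂μ := by
  -- the fixed bump
  let b : ContDiffBump (0 : R n) := ⟨1 / 2, 1, by norm_num, by norm_num⟩
  have hbs : ContDiff ℝ ∞ (b : R n → ℝ) := b.contDiff
  have hbc : HasCompactSupport (b : R n → ℝ) := b.hasCompactSupport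
  obtain ⟨M, hM⟩ := (hbc.fderiv (𝕜 := ℝ)).exists_bound_of_continuous
    (hbs.continuous_fderiv (by simp))
  have hM0 : 0 ≤ M := (norm_nonneg _).trans (hM 0)
  refine ⟨∑ j, ‖B j‖ * M, Finset.sum_nonneg fun j _ => by positivity, ?_⟩
  intro Ω hΩ u hu μ g hμ hg hg1 h x hx r hr hrΩ
  set c : R K := g x with hc
  set ψ : R n → ℝ := fun y => b (r⁻¹ • (y - x)) with hψ
  have hlin : ContDiff ℝ ∞ (fun y : R n => r⁻¹ • (y - x)) :=
    (contDiff_id.sub contDiff_const).const_smul _
  have hψs : ContDiff ℝ ∞ ψ := hbs.comp hlin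
  have hψ0 : ∀ y, 0 ≤ ψ y := fun y => b.nonneg
  have hψ1 : ∀ y, ψ y ≤ 1 := fun y => b.le_one
  have hnorm : ∀ y : R n, ‖r⁻¹ • (y - x)‖ = dist y x / r := by
    intro y
    rw [norm_smul, norm_inv, Real.norm_of_nonneg hr.le, dist_eq_norm, div_eq_inv_mul]
  have hψin : ∀ y ∈ closedBall x (r / 2), ψ y = 1 := by
    intro y hy
    apply b.one_of_mem_closedBall
    rw [mem_closedBall, dist_zero_right, hnorm, div_le_iff₀ hr]
    change dist y x ≤ 1 / 2 * r
    rw [mem_closedBall] at hy
    linarith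
  have hψout : ∀ y, y ∉ ball x r → ψ y = 0 := by
    intro y hy
    apply b.zero_of_le_dist
    rw [dist_zero_right, hnorm, le_div_iff₀ hr]
    change 1 * r ≤ dist y x
    rw [mem_ball, not_lt] at hy
    linarith
  have hsupp : Function.support ψ ⊆ closedBall x r := by
    intro y hy
    by_contra hny
    exact hy (hψout y (fun h => hny (ball_subset_closedBall h)))
  set Φ : R n → R K := fun y => ψ y • c with hΦ
  have hΦs : ContDiff ℝ ∞ Φ := hψs.smul contDiff_const
  have hΦsupp : Function.support Φ ⊆ closedBall x r := by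
    intro y hy
    apply hsupp
    intro hy0
    apply hy
    rw [hΦ]
    simp [hy0]
  have hΦt : tsupport Φ ⊆ closedBall x r := closure_minimal hΦsupp isClosed_closedBall
  have hΦc : HasCompactSupport Φ :=
    HasCompactSupport.of_support_subset_isCompact (isCompact_closedBall x r) hΦsupp
  have h3 := h Φ hΦs hΦc (hΦt.trans hrΩ)
  -- derivative bound
  have hdψ : ∀ y v, ‖fderiv ℝ Φ y v‖ ≤ M * r⁻¹ * ‖v‖ := by
    intro y v
    have a1 : HasFDerivAt (fun y : R n => r⁻¹ • (y - x)) (r⁻¹ • ContinuousLinearMap.id ℝ (R n)) y :=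
      ((hasFDerivAt_id y).sub_const x).const_smul r⁻¹
    have a2 := ((hbs.differentiable (by simp) (r⁻¹ • (y - x))).hasFDerivAt).comp y a1
    have a3 : HasFDerivAt Φ _ y := a2.smul_const c
    rw [a3.fderiv]
    simp only [ContinuousLinearMap.smulRight_apply, ContinuousLinearMap.comp_apply,
      _root_.smul_apply, ContinuousLinearMap.id_apply, map_smul, smul_eq_mul]
    rw [norm_smul, hx, mul_one, norm_mul, norm_inv, Real.norm_of_nonneg hr.le]
    calc r⁻¹ * ‖fderiv ℝ b (r⁻¹ • (y - x)) v‖ ≤ r⁻¹ * (M * ‖v‖) := by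
          apply mul_le_mul_of_nonneg_left _ (by positivity)
          exact ((fderiv ℝ b (r⁻¹ • (y - x))).le_opNorm v).trans
            (mul_le_mul_of_nonneg_right (hM _) (norm_nonneg _))
      _ = M * r⁻¹ * ‖v‖ := by ring
  have hdout : ∀ y, y ∉ closedBall x r → fderiv ℝ Φ y = 0 := by
    intro y hy
    have : y ∉ tsupport (fderiv ℝ Φ) := fun h => hy (hΦt (tsupport_fderiv_subset ℝ h))
    exact image_eq_zero_of_notMem_tsupport this
  -- upper bound for the left-hand side
  have hub : ‖∫ y in Ω, ∑ j, inner ℝ (B j (u y)) (fderiv ℝ Φ y (EuclideanSpace.single j 1))‖ ≤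
      (∑ j, ‖B j‖ * M) * r⁻¹ * ∫ y in ball x r, ‖u y‖ := by
    have e1 : ∫ y in Ω, ∑ j, inner ℝ (B j (u y)) (fderiv ℝ Φ y (EuclideanSpace.single j 1)) =
        ∫ y in closedBall x r,
          ∑ j, inner ℝ (B j (u y)) (fderiv ℝ Φ y (EuclideanSpace.single j 1)) := by
      apply setIntegral_eq_of_subset_of_forall_sdiff_eq_zero hΩ.measurableSet hrΩ
      intro y hy
      rw [hdout y hy.2]
      simp
    have e2 : (closedBall x r : Set (R n)) =ᵐ[volume] ball x r := by
      rw [← ball_union_sphere]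
      have : volume (sphere x r) = 0 := Measure.addHaar_sphere_of_ne_zero volume x hr.ne'
      exact union_ae_eq_left_of_ae_eq_empty (ae_eq_empty.2 this)
    rw [e1, setIntegral_congr_set e2]
    have hui : IntegrableOn u (ball x r) := hu.mono_set (ball_subset_closedBall.trans hrΩ)
    calc ‖∫ y in ball x r, ∑ j, inner ℝ (B j (u y)) (fderiv ℝ Φ y (EuclideanSpace.single j 1))‖
        ≤ ∫ y in ball x r, (∑ j, ‖B j‖ * M) * r⁻¹ * ‖u y‖ := by
          apply norm_integral_le_of_norm_le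
          · exact hui.norm.const_mul _
          · filter_upwards with y
            calc ‖∑ j, inner ℝ (B j (u y)) (fderiv ℝ Φ y (EuclideanSpace.single j 1))‖
                ≤ ∑ j, ‖(inner ℝ (B j (u y)) (fderiv ℝ Φ y (EuclideanSpace.single j 1)) : ℝ)‖ :=
                  norm_sum_le _ _
              _ ≤ ∑ j, (‖B j‖ * M) * r⁻¹ * ‖u y‖ := by
                  apply Finset.sum_le_sum
                  intro j _
                  have hs1 : ‖(EuclideanSpace.single j 1 : R n)‖ = 1 := by simp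
                  calc ‖(inner ℝ (B j (u y)) (fderiv ℝ Φ y (EuclideanSpace.single j 1)) : ℝ)‖
                      ≤ ‖B j (u y)‖ * ‖fderiv ℝ Φ y (EuclideanSpace.single j 1)‖ :=
                        norm_inner_le_norm _ _
                    _ ≤ (‖B j‖ * ‖u y‖) * (M * r⁻¹ * ‖(EuclideanSpace.single j 1 : R n)‖) := by
                        apply mul_le_mul ((B j).le_opNorm _) (hdψ _ _) (norm_nonneg _)
                          (by positivity)
                    _ = (‖B j‖ * M) * r⁻¹ * ‖u y‖ := by rw [hs1]; ring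
              _ = _ := by rw [← Finset.sum_mul, ← Finset.sum_mul]
      _ = _ := by rw [integral_const_mul]
  -- lower bound for the right-hand side
  have hcb : MeasurableSet (closedBall x r) := measurableSet_closedBall
  have hcb2 : MeasurableSet (closedBall x (r / 2)) := measurableSet_closedBall
  have hgc : Integrable (fun y => ‖g y - c‖) μ := by
    apply Integrable.of_bound (C := 2)
    · exact ((hg.sub_const c).norm).aestronglyMeasurable
    · filter_upwards [hg1] with y hy
      rw [norm_norm]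
      calc ‖g y - c‖ ≤ ‖g y‖ + ‖c‖ := norm_sub_le _ _
        _ = 2 := by rw [hy, hx]; norm_num
  have hlb : μ.real (closedBall x (r / 2)) - ∫ y in closedBall x r, ‖g y - c‖ ∂μ ≤
      ∫ y, inner ℝ (g y) (Φ y) ∂μ := by
    have i1 : Integrable ((closedBall x (r / 2)).indicator (fun _ => (1 : ℝ))) μ :=
      (integrable_const (1 : ℝ)).indicator hcb2
    have i2 : Integrable ((closedBall x r).indicator (fun y => ‖g y - c‖)) μ :=
      hgc.indicator hcb
    have i3 : Integrable (fun y => (inner ℝ (g y) (Φ y) : ℝ)) μ := by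
      apply Integrable.of_bound (C := 1)
      · exact (Continuous.aestronglyMeasurable (by fun_prop : Continuous fun p : R K × R K =>
          (inner ℝ p.1 p.2 : ℝ))).comp_measurable (hg.prodMk hΦs.continuous.measurable)
      · filter_upwards [hg1] with y hy
        calc ‖(inner ℝ (g y) (Φ y) : ℝ)‖ ≤ ‖g y‖ * ‖Φ y‖ := norm_inner_le_norm _ _
          _ = ψ y := by
              rw [hy, one_mul, hΦ]
              simp only [norm_smul, hx, mul_one]
              exact Real.norm_of_nonneg (hψ0 y)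
          _ ≤ 1 := hψ1 y
    rw [← integral_indicator hcb]
    have : μ.real (closedBall x (r / 2)) =
        ∫ y, (closedBall x (r / 2)).indicator (fun _ => (1 : ℝ)) y ∂μ := by
      rw [integral_indicator hcb2]
      simp
    rw [this, ← integral_sub i1 i2]
    apply integral_mono_ae (i1.sub i2) i3
    filter_upwards [hg1] with y hy
    have hin : (inner ℝ (g y) (Φ y) : ℝ) = ψ y * (1 + inner ℝ (g y - c) c) := by
      rw [hΦ]
      simp only [real_inner_smul_right, inner_sub_left, real_inner_self_eq_norm_sq, hx]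
      ring
    have hin2 : -‖g y - c‖ ≤ (inner ℝ (g y - c) c : ℝ) := by
      have := abs_real_inner_le_norm (g y - c) c
      rw [hx, mul_one] at this
      exact (abs_le.1 this).1
    change (closedBall x (r / 2)).indicator (fun _ => (1 : ℝ)) y -
      (closedBall x r).indicator (fun y => ‖g y - c‖) y ≤ _
    rw [hin]
    by_cases hy2 : y ∈ closedBall x (r / 2)
    · have hyr : y ∈ closedBall x r := closedBall_subset_closedBall (by linarith) hy2
      rw [indicator_of_mem hy2, indicator_of_mem hyr, hψin y hy2]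
      linarith
    · rw [indicator_of_notMem hy2]
      by_cases hyr : y ∈ closedBall x r
      · rw [indicator_of_mem hyr]
        have h1 := hψ0 y
        have h2 := hψ1 y
        have h3 := norm_nonneg (g y - c)
        nlinarith
      · rw [indicator_of_notMem hyr, hψout y (fun h => hyr (ball_subset_closedBall h))]
        simp
  have h4 : ∫ y, inner ℝ (g y) (Φ y) ∂μ ≤
      ‖∫ y in Ω, ∑ j, inner ℝ (B j (u y)) (fderiv ℝ Φ y (EuclideanSpace.single j 1))‖ := by
    rw [h3, norm_neg]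
    exact Real.le_norm_self _
  linarith

/-- **Q1, affirmative, for all first order operators.** For every first order homogeneous
constant-coefficient operator `B` (elliptic or not), every open `Ω ⊆ ℝⁿ`, `n ≥ 2`, and every
`u ∈ BV^B(Ω)`, with `B u = g μ` in polar form (`μ = |B u|`, `|g| = 1` `μ`-a.e.), every Borel subset
`E` of the jump set `J_u` with `ℋ^{n-1}(E) = 0` satisfies `|B u|(E) = 0`. -/
theorem result : ∀ (n N K : ℕ), 2 ≤ n → ∀ (B : Fin n → (R N →L[ℝ] R K)) (Ω : Set (R n)),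
    IsOpen Ω → ∀ u : R n → R N, IntegrableOn u Ω →
    ∀ (μ : Measure (R n)) (g : R n → R K), IsFiniteMeasure μ → μ Ωᶜ = 0 → Measurable g →
      (∀ᵐ x ∂μ, ‖g x‖ = 1) → IsDistr B Ω u μ g →
    ∀ E : Set (R n), MeasurableSet E → E ⊆ {x | x ∈ Ω ∧ IsJumpPoint u x} →
      μH[(n : ℝ) - 1] E = 0 → μ E = 0 := by
  intro n N K hn B Ω hΩ u hu μ g hμ _ hg hg1 h E _ hEJ hE0
  obtain ⟨D, hD0, hD⟩ := test_estimate B
  have hgi : LocallyIntegrable g μ := by
    apply Integrable.locallyIntegrable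
    apply Integrable.of_bound hg.aestronglyMeasurable 1
    filter_upwards [hg1] with y hy
    rw [hy]
  have hLeb := (Besicovitch.vitaliFamily μ).ae_tendsto_average_norm_sub hgi
  set G : Set (R n) := {x | ‖g x‖ = 1 ∧
    Tendsto (fun a => ⨍ y in a, ‖g y - g x‖ ∂μ) ((Besicovitch.vitaliFamily μ).filterAt x) (𝓝 0)}
    with hG
  have hGae : μ Gᶜ = 0 := by
    have : ∀ᵐ x ∂μ, x ∈ G := by
      filter_upwards [hg1, hLeb] with x h1 h2
      exact ⟨h1, h2⟩
    exact this
  have hmain : μ (E ∩ G) = 0 := by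
    have hs : (0 : ℝ) < (n : ℝ) - 1 := by
      have : (2 : ℝ) ≤ n := by exact_mod_cast hn
      linarith
    apply null_of_density μ hs (measure_mono_null inter_subset_left hE0)
    rintro x ⟨hxE, hx1, hxL⟩
    obtain ⟨hxΩ, hxJ⟩ := hEJ hxE
    obtain ⟨C, r₁, hC0, hr₁, hC⟩ := bounded_averages hΩ hu hxΩ hxJ
    have hxL' := hxL.comp (Besicovitch.tendsto_filterAt μ x)
    have hev : ∀ᶠ r in 𝓝[>] (0 : ℝ), ⨍ y in closedBall x r, ‖g y - g x‖ ∂μ < (1 / 2) ^ n :=
      hxL'.eventually (gt_mem_nhds (by positivity))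
    obtain ⟨r₂, hr₂, H⟩ := mem_nhdsGT_iff_exists_Ioo_subset.1 hev
    have hr₂' : 0 < r₂ := hr₂
    set r₀ : ℝ := min r₁ r₂ / 2 with hr₀
    have hr₀pos : 0 < r₀ := by
      rw [hr₀]
      have := lt_min hr₁ hr₂'
      linarith
    have hstep : ∀ r, 0 < r → r ≤ r₀ → μ.real (closedBall x (r / 2)) ≤
        (D * C) * r ^ (n - 1) + (1 / 2) ^ n * μ.real (closedBall x r) := by
      intro r hr hrr
      have hr1 : r < r₁ := by
        have := min_le_left r₁ r₂
        rw [hr₀] at hrr
        linarith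
      have hr2 : r < r₂ := by
        have := min_le_right r₁ r₂
        rw [hr₀] at hrr
        linarith
      obtain ⟨hcb, hav⟩ := hC r hr hr1
      have h1 := hD Ω hΩ u hu μ g hμ hg hg1 h x hx1 r hr hcb
      have h2 : ⨍ y in closedBall x r, ‖g y - g x‖ ∂μ < (1 / 2) ^ n := H ⟨hr, hr2⟩
      have h3 : ∫ y in closedBall x r, ‖g y - g x‖ ∂μ ≤
          (1 / 2) ^ n * μ.real (closedBall x r) := by
        have h4 := measure_smul_setAverage (μ := μ) (fun y => ‖g y - g x‖)
          (s := closedBall x r) (measure_ne_top _ _)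
        rw [← h4, smul_eq_mul, mul_comm]
        exact mul_le_mul_of_nonneg_right h2.le measureReal_nonneg
      have h5 : D * r⁻¹ * (∫ y in ball x r, ‖u y‖) ≤ D * C * r ^ (n - 1) := by
        calc D * r⁻¹ * (∫ y in ball x r, ‖u y‖) ≤ D * r⁻¹ * (C * r ^ n) := by gcongr
          _ = D * C * r ^ (n - 1) := by
              obtain ⟨m, rfl⟩ : ∃ m, n = m + 1 := ⟨n - 1, by omega⟩
              rw [Nat.add_sub_cancel, pow_succ]
              field_simp
      linarith
    obtain ⟨M, hM⟩ := iterate (a := fun r => μ.real (closedBall x r)) (n := n) (by omega)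
      hr₀pos (fun r s hrs => measureReal_mono (closedBall_subset_closedBall hrs))
      (fun r => measureReal_nonneg) hstep
    refine ⟨M, r₀, hr₀pos, fun r hr hrr => ?_⟩
    have h6 := hM r hr hrr
    have h7 : r ^ ((n : ℝ) - 1) = r ^ (n - 1) := by
      rw [← Real.rpow_natCast, Nat.cast_sub (by omega)]
      simp
    rw [h7]
    rw [← ofReal_measureReal (measure_ne_top μ _)]
    exact ENNReal.ofReal_le_ofReal h6
  have hcov : E ⊆ (E ∩ G) ∪ Gᶜ := by
    intro x hx
    by_cases hxG : x ∈ G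
    · exact Or.inl ⟨hx, hxG⟩
    · exact Or.inr hxG
  exact measure_mono_null hcov (measure_union_null hmain hGae)

end Pool.Agent.Results.MP_06111c_an.AllFirstOrder
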